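import Pool.Agent.K4H14.GQ.Step

/-!
# The normal law for almost all quadratic twists: the main theorem
-/

set_option autoImplicit false

namespace Pool.Agent.K4H14.GQ

open Finset MeasureTheory ProbabilityTheory Filter
open Pool.Agent.K4H14.GC

/-- the exceptional property: the normal law fails by more than `δ` somewhere in `[Y, Z]` -/
def Exc (ε δ Y Z : ℝ) (f : ℕ → ℝ) : Prop :=
  ∃ X : ℝ, Y ≤ X ∧ X ≤ Z ∧ ∃ H : ℝ, X ^ ε ≤ H ∧ H ≤ X ^ (1 - ε) ∧ ∃ t : ℝ, δ < |(volume (VV f X H t)).toReal / X - Ph t|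

/-- all primes up to `Q` with the property `P` -/
noncomputable def PL (Q : ℕ) (P : ℕ → Prop) : Finset ℕ := PQ 0 Q P

theorem card_split (D Q : ℕ) (P : ℕ → Prop) : ((PL Q P).card : ℝ) ≤ D + ((PQ D Q P).card : ℝ) := by
  classical
  have h1 : PL Q P ⊆ Ioc 0 D ∪ PQ D Q P := by
    intro q hq
    unfold PL at hq
    rw [mem_PQ] at hq
    rw [mem_union, mem_Ioc, mem_PQ]
    by_cases h : q ≤ D
    · left; exact ⟨hq.1.1, h⟩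
    · right; exact ⟨⟨by omega, hq.1.2⟩, hq.2⟩
  have h2 := (card_le_card h1).trans (card_union_le _ _)
  rw [Nat.card_Ioc, Nat.sub_zero] at h2
  exact_mod_cast h2

theorem PQ_mono (D Q : ℕ) (P P' : ℕ → Prop) (h : ∀ q, D < q → q ≤ Q → q.Prime → P q → P' q) :
    ((PQ D Q P).card : ℝ) ≤ ((PQ D Q P').card : ℝ) := by
  have : PQ D Q P ⊆ PQ D Q P' := by
    intro q hq
    rw [mem_PQ] at hq ⊢
    exact ⟨hq.1, hq.2.1, h q hq.1.1 hq.1.2 hq.2.1 hq.2.2⟩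
  exact_mod_cast card_le_card this

/-- the number of primes of `(D, Q]` -/
theorem primes_le (D Q : ℕ) (hD : 2 ≤ D) (P : ℕ → Prop) : ((PQ D Q P).card : ℝ) ≤ Q / Real.log D + 5 * (D : ℝ) ^ 2 := by
  classical
  have h1 := sieve D Q hD ({0} : Finset ℕ) (fun _ => 1) (fun _ => 1) 1 (by intro i _; simp)
  simp only [Nat.cast_one, jacobiSym.one_left, Int.cast_one, mul_one, one_pow, abs_one, sum_const, nsmul_eq_mul] at h1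
  rw [if_pos ⟨1, rfl⟩] at h1
  simp only [card_singleton, Nat.cast_one, one_pow, mul_one] at h1
  have h2 : ((PQ D Q P).card : ℝ) ≤ (((Ioc D Q).filter Nat.Prime).card : ℝ) := by
    have : PQ D Q P ⊆ (Ioc D Q).filter Nat.Prime := by
      intro q hq
      rw [mem_PQ] at hq
      rw [mem_filter, mem_Ioc]
      exact ⟨hq.1, hq.2.1⟩
    exact_mod_cast card_le_card this
  linarith

/-- conditions for large `Q` -/
theorem large (K : ℕ) (η : ℝ) (hη : 0 < η) (hηK : η * (8 * (4 * K + 2)) = 1) : ∃ Q₀ : ℕ, 3 ≤ Q₀ ∧ ∀ Q : ℕ, Q₀ ≤ Q →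
    ∃ D : ℕ, 2 ≤ D ∧ (Q : ℝ) ^ ((1 : ℝ) / 16) ≤ D ∧ (D : ℝ) ≤ (Q : ℝ) ^ ((1 : ℝ) / 8) ∧ 9 * ⌊(Q : ℝ) ^ η⌋₊ ≤ D ∧
      (D : ℝ) ^ 2 * Real.log D ≤ Q ∧ 4 * (D : ℝ) ^ 2 * (9 * ((⌊(Q : ℝ) ^ η⌋₊ : ℕ) : ℝ)) ^ (4 * K + 2) * Real.log D ≤ Q := by
  have hη16 : η ≤ 1 / 16 := by
    have hK0 : (0 : ℝ) ≤ K := Nat.cast_nonneg _
    nlinarith
  have hpow : ∀ a B : ℝ, 0 < a → ∀ᶠ x : ℝ in atTop, B ≤ x ^ a := fun a B ha => (tendsto_rpow_atTop ha).eventually_ge_atTop B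
  have hev : ∀ᶠ x : ℝ in atTop, (3 : ℝ) ≤ x ∧ (11 : ℝ) ≤ x ^ ((1 : ℝ) / 16) ∧ 4 * (9 : ℝ) ^ (4 * K + 2) ≤ x ^ ((1 : ℝ) / 2) := by
    filter_upwards [eventually_ge_atTop (3 : ℝ), hpow ((1 : ℝ) / 16) 11 (by norm_num), hpow ((1 : ℝ) / 2) (4 * (9 : ℝ) ^ (4 * K + 2)) (by norm_num)]
      with x h1 h2 h3
    exact ⟨h1, h2, h3⟩
  obtain ⟨x₀, hx₀⟩ := eventually_atTop.1 hev
  refine ⟨max 3 ⌈x₀⌉₊, le_max_left _ _, ?_⟩
  intro Q hQ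
  have hQx : x₀ ≤ Q := (Nat.le_ceil x₀).trans (by exact_mod_cast (le_max_right _ _).trans hQ)
  obtain ⟨h3, h11, h4⟩ := hx₀ Q hQx
  obtain ⟨x, hx⟩ : ∃ x : ℝ, x = Q := ⟨_, rfl⟩
  rw [← hx] at h3 h11 h4 ⊢
  have hx0 : 0 < x := by linarith
  have hx1 : 1 ≤ x := by linarith
  have hmono : ∀ a b : ℝ, a ≤ b → x ^ a ≤ x ^ b := fun a b hab => Real.rpow_le_rpow_of_exponent_le hx1 hab
  have hadd : ∀ a b : ℝ, x ^ a * x ^ b = x ^ (a + b) := fun a b => (Real.rpow_add hx0 a b).symm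
  have hsq : x ^ ((1 : ℝ) / 16) * x ^ ((1 : ℝ) / 16) = x ^ ((1 : ℝ) / 8) := by rw [hadd]; norm_num
  obtain ⟨D, hD⟩ : ∃ D, D = ⌊x ^ ((1 : ℝ) / 8)⌋₊ := ⟨_, rfl⟩
  have hD1 : (D : ℝ) ≤ x ^ ((1 : ℝ) / 8) := by rw [hD]; exact Nat.floor_le (by positivity)
  have hD2 : x ^ ((1 : ℝ) / 8) < D + 1 := by rw [hD]; exact Nat.lt_floor_add_one _
  have hy0 : 0 < x ^ ((1 : ℝ) / 16) := by positivity
  have hD3 : x ^ ((1 : ℝ) / 16) ≤ D := by nlinarith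
  have hD4 : (2 : ℝ) ≤ D := by linarith
  have hD5 : 2 ≤ D := by exact_mod_cast hD4
  have hZ : ((⌊x ^ η⌋₊ : ℕ) : ℝ) ≤ x ^ η := Nat.floor_le (by positivity)
  have hZ0 : (0 : ℝ) ≤ ((⌊x ^ η⌋₊ : ℕ) : ℝ) := Nat.cast_nonneg _
  have hη1 : x ^ η ≤ x ^ ((1 : ℝ) / 16) := hmono _ _ hη16
  have hlogD0 : 0 ≤ Real.log D := Real.log_nonneg (by linarith)
  have hlogD : Real.log D ≤ x ^ ((1 : ℝ) / 8) := (Real.log_le_self (by linarith)).trans hD1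
  have hD0 : (0 : ℝ) ≤ D := by linarith
  have hDsq : (D : ℝ) ^ 2 ≤ x ^ ((1 : ℝ) / 4) := by
    calc (D : ℝ) ^ 2 ≤ (x ^ ((1 : ℝ) / 8)) ^ 2 := pow_le_pow_left₀ hD0 hD1 2
      _ = x ^ ((1 : ℝ) / 4) := by rw [sq, hadd]; norm_num
  have hx14 : 0 < x ^ ((1 : ℝ) / 4) := by positivity
  refine ⟨D, hD5, hD3, hD1, ?_, ?_, ?_⟩
  · have : (9 : ℝ) * ((⌊x ^ η⌋₊ : ℕ) : ℝ) ≤ D := by nlinarith
    exact_mod_cast this
  · calc (D : ℝ) ^ 2 * Real.log D ≤ x ^ ((1 : ℝ) / 4) * x ^ ((1 : ℝ) / 8) := mul_le_mul hDsq hlogD hlogD0 hx14.le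
      _ = x ^ ((1 : ℝ) / 4 + 1 / 8) := hadd _ _
      _ ≤ x ^ (1 : ℝ) := hmono _ _ (by norm_num)
      _ = x := Real.rpow_one x
  · have e1 : (9 * ((⌊x ^ η⌋₊ : ℕ) : ℝ)) ^ (4 * K + 2) ≤ (9 : ℝ) ^ (4 * K + 2) * x ^ ((1 : ℝ) / 8) := by
      rw [mul_pow]
      apply mul_le_mul_of_nonneg_left _ (by positivity)
      calc ((⌊x ^ η⌋₊ : ℕ) : ℝ) ^ (4 * K + 2) ≤ (x ^ η) ^ (4 * K + 2) := pow_le_pow_left₀ hZ0 hZ _
        _ = x ^ ((1 : ℝ) / 8) := by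
          rw [← Real.rpow_natCast, ← Real.rpow_mul hx0.le]
          congr 1
          push_cast
          linarith
    calc 4 * (D : ℝ) ^ 2 * (9 * ((⌊x ^ η⌋₊ : ℕ) : ℝ)) ^ (4 * K + 2) * Real.log D
        ≤ 4 * x ^ ((1 : ℝ) / 4) * ((9 : ℝ) ^ (4 * K + 2) * x ^ ((1 : ℝ) / 8)) * x ^ ((1 : ℝ) / 8) := by
          gcongr
      _ = (4 * (9 : ℝ) ^ (4 * K + 2)) * (x ^ ((1 : ℝ) / 4) * (x ^ ((1 : ℝ) / 8) * x ^ ((1 : ℝ) / 8))) := by ring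
      _ = (4 * (9 : ℝ) ^ (4 * K + 2)) * x ^ ((1 : ℝ) / 2) := by
          rw [hadd, hadd]
          norm_num
      _ ≤ x ^ ((1 : ℝ) / 2) * x ^ ((1 : ℝ) / 2) := mul_le_mul_of_nonneg_right h4 (by positivity)
      _ = x := by rw [hadd]; norm_num

theorem log_le_half (x : ℝ) (hx : 0 ≤ x) : Real.log x ≤ 2 * x ^ ((1 : ℝ) / 2) := by
  have := Real.log_le_rpow_div hx (show (0 : ℝ) < 1 / 2 by norm_num)
  linarith

theorem twists (ε δ : ℝ) (hε : 0 < ε) (hδ : 0 < δ) : ∃ η c C : ℝ, 0 < η ∧ 0 < c ∧ 0 < C ∧ ∀ g : ℕ → ℝ, SF g →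
    ∀ Q : ℕ, 2 ≤ Q → ∀ Y : ℝ, 1 ≤ Y →
      ((PL Q (fun q => Exc ε δ Y ((Q : ℝ) ^ η) (tw g q))).card : ℝ) ≤ C * Y ^ (-c) * (Q / Real.log Q) := by
  obtain ⟨K, b, hK, κ, hκ, hκK, _, _, N₁, hN₁, hdet⟩ := det (δ / 48) (ε / 2) (by positivity) (by positivity)
  obtain ⟨A, hA, hbad⟩ := all_bad K b κ hκ hκK
  obtain ⟨X₀, hX₀2, hstep⟩ := real_step ε δ hε hδ
  have hKr : (4 : ℝ) ≤ K := by exact_mod_cast hK
  obtain ⟨η, hη⟩ : ∃ η : ℝ, η = 1 / (8 * (4 * K + 2)) := ⟨_, rfl⟩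
  have hη0 : 0 < η := by rw [hη]; positivity
  have hηK : η * (8 * (4 * K + 2)) = 1 := by rw [hη]; field_simp
  have hη1 : η ≤ 1 := by nlinarith
  obtain ⟨Q₀, hQ₀3, hlarge⟩ := large K η hη0 hηK
  obtain ⟨c, hc⟩ : ∃ c : ℝ, c = κ / 16 := ⟨_, rfl⟩
  have hc0 : 0 < c := by rw [hc]; positivity
  have hc8 : c ≤ 1 / 8 := by
    rw [hc]
    have : κ ≤ 1 := by nlinarith
    linarith
  have hηc : η * c ≤ 1 / 8 := by nlinarith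
  obtain ⟨X₁, hX₁⟩ : ∃ X₁ : ℝ, X₁ = max X₀ (4 * (N₁ + 2) + 2 ^ (b + 1)) := ⟨_, rfl⟩
  have hX₁0 : X₀ ≤ X₁ := by rw [hX₁]; exact le_max_left _ _
  have hX₁1 : 4 * (N₁ + 2) + 2 ^ (b + 1) ≤ X₁ := by rw [hX₁]; exact le_max_right _ _
  have hX₁p : 2 ≤ X₁ := hX₀2.trans hX₁0
  refine ⟨η, c, Q₀ ^ 2 + 28 * X₁ ^ c + 2 + 16 * A * 4 ^ c, hη0, hc0, by positivity, ?_⟩
  intro g hg Q hQ Y hY
  have hY0 : 0 < Y := by linarith
  have hQr : (2 : ℝ) ≤ Q := by exact_mod_cast hQ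
  have hQ0 : (0 : ℝ) < Q := by linarith
  have hQ1 : (1 : ℝ) ≤ Q := by linarith
  have hlogQ : 0 < Real.log Q := Real.log_pos (by linarith)
  have hlogQle : Real.log Q ≤ Q := Real.log_le_self hQ0.le
  obtain ⟨L, hL⟩ : ∃ L : ℝ, L = Q / Real.log Q := ⟨_, rfl⟩
  have hL1 : 1 ≤ L := by rw [hL, le_div_iff₀ hlogQ, one_mul]; exact hlogQle
  have hYc : 0 < Y ^ (-c) := by positivity
  rw [← hL]
  have hpA : 0 ≤ 16 * A * (4 : ℝ) ^ c := by positivity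
  have hpX : 0 ≤ 28 * X₁ ^ c := by positivity
  have hpQ : (0 : ℝ) ≤ (Q₀ : ℝ) ^ 2 := by positivity
  by_cases hYQ : Y ≤ (Q : ℝ) ^ η
  swap
  · -- nothing to show
    have h1 : PL Q (fun q => Exc ε δ Y ((Q : ℝ) ^ η) (tw g q)) = ∅ := by
      rw [eq_empty_iff_forall_notMem]
      intro q hq
      unfold PL at hq
      rw [mem_PQ] at hq
      obtain ⟨_, _, X, h1, h2, _⟩ := hq
      exact hYQ (h1.trans h2)
    rw [h1, card_empty, Nat.cast_zero]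
    positivity
  by_cases hQQ : Q₀ ≤ Q
  swap
  · -- small Q
    have hQQ' : (Q : ℝ) ≤ Q₀ := by exact_mod_cast (not_le.1 hQQ).le
    have h1 : ((PL Q (fun q => Exc ε δ Y ((Q : ℝ) ^ η) (tw g q))).card : ℝ) ≤ Q := by
      have h2 : PL Q (fun q => Exc ε δ Y ((Q : ℝ) ^ η) (tw g q)) ⊆ Ioc 0 Q := by
        intro q hq
        unfold PL at hq
        rw [mem_PQ] at hq
        rw [mem_Ioc]
        exact hq.1
      have h3 := card_le_card h2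
      rw [Nat.card_Ioc, Nat.sub_zero] at h3
      exact_mod_cast h3
    have h4 : (Q : ℝ) ^ (-(1 : ℝ)) ≤ Y ^ (-c) := by
      calc (Q : ℝ) ^ (-(1 : ℝ)) ≤ (Q : ℝ) ^ (-(η * c)) := Real.rpow_le_rpow_of_exponent_le hQ1 (by linarith)
        _ = ((Q : ℝ) ^ η) ^ (-c) := by rw [← Real.rpow_mul hQ0.le]; congr 1; ring
        _ ≤ Y ^ (-c) := Real.rpow_le_rpow_of_nonpos hY0 hYQ (by linarith)
    rw [Real.rpow_neg_one] at h4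
    have h5 : (Q : ℝ) ≤ (Q₀ : ℝ) ^ 2 * Y ^ (-c) := by
      have h6 : (Q : ℝ) ^ 2 ≤ (Q₀ : ℝ) ^ 2 := pow_le_pow_left₀ hQ0.le hQQ' 2
      have h7 : (Q : ℝ) = (Q : ℝ) ^ 2 * (Q : ℝ)⁻¹ := by field_simp
      calc (Q : ℝ) = (Q : ℝ) ^ 2 * (Q : ℝ)⁻¹ := h7
        _ ≤ (Q₀ : ℝ) ^ 2 * Y ^ (-c) := mul_le_mul h6 h4 (by positivity) (by positivity)
    have h8 : (Q₀ : ℝ) ^ 2 * Y ^ (-c) ≤ ((Q₀ : ℝ) ^ 2 + 28 * X₁ ^ c + 2 + 16 * A * 4 ^ c) * Y ^ (-c) :=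
      mul_le_mul_of_nonneg_right (by linarith) hYc.le
    have h9 : ((Q₀ : ℝ) ^ 2 + 28 * X₁ ^ c + 2 + 16 * A * 4 ^ c) * Y ^ (-c) * 1 ≤
        ((Q₀ : ℝ) ^ 2 + 28 * X₁ ^ c + 2 + 16 * A * 4 ^ c) * Y ^ (-c) * L := by
      apply mul_le_mul_of_nonneg_left hL1
      positivity
    linarith
  -- large Q
  obtain ⟨D, hD2, hD3, hD4, hD5, hD6, hD7⟩ := hlarge Q hQQ
  have hDr : (2 : ℝ) ≤ D := by exact_mod_cast hD2
  have hlogD : 0 < Real.log D := Real.log_pos (by linarith)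
  have hlogDQ : Real.log Q ≤ 16 * Real.log D := by
    have h1 := Real.log_le_log (by positivity) hD3
    rw [Real.log_rpow hQ0] at h1
    linarith
  have hLD : Q / Real.log D ≤ 16 * L := by
    rw [hL, div_le_iff₀ hlogD]
    have h1 : 16 * (Q / Real.log Q) * Real.log D = Q * (16 * Real.log D) / Real.log Q := by ring
    rw [h1, le_div_iff₀ hlogQ]
    exact mul_le_mul_of_nonneg_left hlogDQ hQ0.le
  have hLhalf : (Q : ℝ) ^ ((1 : ℝ) / 2) ≤ 2 * L := by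
    have h1 := log_le_half Q hQ0.le
    rw [hL, ← mul_div_assoc, le_div_iff₀ hlogQ]
    have h2 : (Q : ℝ) ^ ((1 : ℝ) / 2) * (Q : ℝ) ^ ((1 : ℝ) / 2) = Q := by
      rw [← Real.rpow_add hQ0]; norm_num
    have h3 : 0 < (Q : ℝ) ^ ((1 : ℝ) / 2) := by positivity
    calc (Q : ℝ) ^ ((1 : ℝ) / 2) * Real.log Q ≤ (Q : ℝ) ^ ((1 : ℝ) / 2) * (2 * (Q : ℝ) ^ ((1 : ℝ) / 2)) :=
          mul_le_mul_of_nonneg_left h1 h3.le
      _ = 2 * ((Q : ℝ) ^ ((1 : ℝ) / 2) * (Q : ℝ) ^ ((1 : ℝ) / 2)) := by ring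
      _ = 2 * Q := by rw [h2]
  have hsmall : (D : ℝ) ≤ 2 * Y ^ (-c) * L := by
    have h1 : (Q : ℝ) ^ (-((1 : ℝ) / 8)) ≤ Y ^ (-c) := by
      calc (Q : ℝ) ^ (-((1 : ℝ) / 8)) ≤ (Q : ℝ) ^ (-(η * c)) := Real.rpow_le_rpow_of_exponent_le hQ1 (by linarith)
        _ = ((Q : ℝ) ^ η) ^ (-c) := by rw [← Real.rpow_mul hQ0.le]; congr 1; ring
        _ ≤ Y ^ (-c) := Real.rpow_le_rpow_of_nonpos hY0 hYQ (by linarith)
    calc (D : ℝ) ≤ (Q : ℝ) ^ ((1 : ℝ) / 8) := hD4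
      _ ≤ (Q : ℝ) ^ (-((1 : ℝ) / 8) + 1 / 2) := Real.rpow_le_rpow_of_exponent_le hQ1 (by norm_num)
      _ = (Q : ℝ) ^ (-((1 : ℝ) / 8)) * (Q : ℝ) ^ ((1 : ℝ) / 2) := Real.rpow_add hQ0 _ _
      _ ≤ Y ^ (-c) * (2 * L) := mul_le_mul h1 hLhalf (by positivity) hYc.le
      _ = _ := by ring
  have hYcL : 0 ≤ Y ^ (-c) * L := by positivity
  by_cases hYX : X₁ ≤ Y
  swap
  · -- small Y
    have h1 := card_split D Q (fun q => Exc ε δ Y ((Q : ℝ) ^ η) (tw g q))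
    have h2 := primes_le D Q hD2 (fun q => Exc ε δ Y ((Q : ℝ) ^ η) (tw g q))
    have h3 : (D : ℝ) ^ 2 ≤ (Q : ℝ) ^ ((1 : ℝ) / 2) := by
      calc (D : ℝ) ^ 2 ≤ ((Q : ℝ) ^ ((1 : ℝ) / 8)) ^ 2 := pow_le_pow_left₀ (by linarith) hD4 2
        _ = (Q : ℝ) ^ ((1 : ℝ) / 4) := by rw [sq, ← Real.rpow_add hQ0]; norm_num
        _ ≤ _ := Real.rpow_le_rpow_of_exponent_le hQ1 (by norm_num)
    have h4 : (D : ℝ) ≤ (D : ℝ) ^ 2 := by nlinarith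
    have h5 : ((PL Q (fun q => Exc ε δ Y ((Q : ℝ) ^ η) (tw g q))).card : ℝ) ≤ 28 * L := by linarith
    have h6 : 1 ≤ X₁ ^ c * Y ^ (-c) := by
      have h7 : X₁ ^ (-c) ≤ Y ^ (-c) := Real.rpow_le_rpow_of_nonpos hY0 (not_le.1 hYX).le (by linarith)
      have h8 : X₁ ^ c * X₁ ^ (-c) = 1 := by
        rw [← Real.rpow_add (by linarith)]; simp
      calc (1 : ℝ) = X₁ ^ c * X₁ ^ (-c) := h8.symm
        _ ≤ _ := mul_le_mul_of_nonneg_left h7 (by positivity)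
    have h9 : 28 * L ≤ 28 * L * (X₁ ^ c * Y ^ (-c)) := le_mul_of_one_le_right (by linarith) h6
    have h10 : 28 * L * (X₁ ^ c * Y ^ (-c)) = (28 * X₁ ^ c) * (Y ^ (-c) * L) := by ring
    have h11 : (28 * X₁ ^ c) * (Y ^ (-c) * L) ≤ ((Q₀ : ℝ) ^ 2 + 28 * X₁ ^ c + 2 + 16 * A * 4 ^ c) * (Y ^ (-c) * L) :=
      mul_le_mul_of_nonneg_right (by linarith) hYcL
    have h12 : ((Q₀ : ℝ) ^ 2 + 28 * X₁ ^ c + 2 + 16 * A * 4 ^ c) * (Y ^ (-c) * L) =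
      ((Q₀ : ℝ) ^ 2 + 28 * X₁ ^ c + 2 + 16 * A * 4 ^ c) * Y ^ (-c) * L := by ring
    linarith
  -- the main case
  obtain ⟨Z, hZ⟩ : ∃ Z : ℕ, Z = ⌊(Q : ℝ) ^ η⌋₊ := ⟨_, rfl⟩
  rw [← hZ] at hD5 hD7
  have hZr : (Z : ℝ) ≤ (Q : ℝ) ^ η := by rw [hZ]; exact Nat.floor_le (by positivity)
  have hb := hbad g hg (Y / 4) Z D Q (by positivity) hD2 hD6 hD7
  have h1 := card_split D Q (fun q => Exc ε δ Y ((Q : ℝ) ^ η) (tw g q))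
  have h2 := PQ_mono D Q (fun q => Exc ε δ Y ((Q : ℝ) ^ η) (tw g q))
    (fun q => ∃ v i : ℕ, 2 ^ b ≤ i ∧ i < 2 ^ (b + 1) ∧ Y / 4 ≤ ((i * 2 ^ v : ℕ) : ℝ) ∧
        i * 2 ^ v ≤ Z ∧ ¬ Good K (2 ^ b) κ (tw g q) (i * 2 ^ v)) (by
    intro q hDq hqQ hq hexc
    obtain ⟨X, hX1, hX2, H, hH1, hH2, t, ht⟩ := hexc
    by_contra hcon
    have hXX : X₁ ≤ X := hYX.trans hX1
    have hXp : 0 < X := by linarith
    obtain ⟨N', hN'⟩ : ∃ N', N' = ⌊X⌋₊ := ⟨_, rfl⟩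
    have hN'1 : (N' : ℝ) ≤ X := by rw [hN']; exact Nat.floor_le hXp.le
    have hN'2 : X < N' + 1 := by rw [hN']; exact Nat.lt_floor_add_one _
    have hN₁0 : (0 : ℝ) ≤ N₁ := Nat.cast_nonneg _
    have hb0 : (0 : ℝ) < 2 ^ (b + 1) := by positivity
    have hN'3 : 2 ^ b ≤ N' := by
      have : (2 : ℝ) ^ b ≤ N' := by
        have : (2 : ℝ) ^ (b + 1) = 2 * 2 ^ b := by ring
        have : (0 : ℝ) < 2 ^ b := by positivity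
        linarith
      exact_mod_cast this
    obtain ⟨i, v, g', e1, hg', hi1, hi2⟩ := digits b N' hN'3
    have hNN : i * 2 ^ v ≤ N' := by omega
    have hhalf : N' ≤ 2 * (i * 2 ^ v) := by
      have : 2 ^ v ≤ i * 2 ^ v := Nat.le_mul_of_pos_left _ (lt_of_lt_of_le (by positivity) hi1)
      omega
    have hhalfr : (N' : ℝ) ≤ 2 * ((i * 2 ^ v : ℕ) : ℝ) := by exact_mod_cast hhalf
    have hNZ : i * 2 ^ v ≤ Z := by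
      have : N' ≤ Z := by
        rw [hN', hZ]
        exact Nat.floor_le_floor hX2
      omega
    have hgood : Good K (2 ^ b) κ (tw g q) (i * 2 ^ v) := by
      by_contra hng
      exact hcon ⟨v, i, hi1, hi2, by linarith, hNZ, hng⟩
    have hrad : Rad (tw g q) (i * 2 ^ v) (9 * (i * 2 ^ v)) := rad_tw hg hq _ _ (by omega)
    have hN1 : N₁ ≤ i * 2 ^ v := by
      have : (N₁ : ℝ) ≤ ((i * 2 ^ v : ℕ) : ℝ) := by linarith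
      exact_mod_cast this
    have hd := hdet (i * 2 ^ v) hN1 (tw g q) hrad hgood N' hNN (by
      have h6 : N' - i * 2 ^ v = g' := by omega
      rw [h6]
      calc 2 ^ b * g' ≤ 2 ^ b * 2 ^ v := Nat.mul_le_mul_left _ hg'.le
        _ ≤ i * 2 ^ v := Nat.mul_le_mul_right _ hi1)
    rw [hN'] at hd
    have hfin := hstep X (hX₁0.trans hXX) (tw g q) (tw_abs hg q) (fun h hh1 hh2 x => by
      refine (hd h hh1 hh2 x).trans (le_of_eq ?_)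
      ring) H hH1 hH2 t
    linarith)
  have h3 : A * (Q / Real.log D) * (Y / 4) ^ (-(κ / 16)) ≤ (16 * A * 4 ^ c) * (Y ^ (-c) * L) := by
    rw [← hc, Real.div_rpow hY0.le (by norm_num), Real.rpow_neg (by norm_num : (0 : ℝ) ≤ 4), div_inv_eq_mul]
    have h4 : A * (Q / Real.log D) ≤ A * (16 * L) := mul_le_mul_of_nonneg_left hLD hA
    calc A * (Q / Real.log D) * (Y ^ (-c) * 4 ^ c) ≤ A * (16 * L) * (Y ^ (-c) * 4 ^ c) :=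
          mul_le_mul_of_nonneg_right h4 (by positivity)
      _ = _ := by ring
  have h5 : ((PL Q (fun q => Exc ε δ Y ((Q : ℝ) ^ η) (tw g q))).card : ℝ) ≤ (2 + 16 * A * 4 ^ c) * (Y ^ (-c) * L) := by
    have h6 : (2 + 16 * A * 4 ^ c) * (Y ^ (-c) * L) = 2 * Y ^ (-c) * L + (16 * A * 4 ^ c) * (Y ^ (-c) * L) := by ring
    linarith
  have h7 : (2 + 16 * A * 4 ^ c) * (Y ^ (-c) * L) ≤ ((Q₀ : ℝ) ^ 2 + 28 * X₁ ^ c + 2 + 16 * A * 4 ^ c) * (Y ^ (-c) * L) :=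
    mul_le_mul_of_nonneg_right (by linarith) hYcL
  have h8 : ((Q₀ : ℝ) ^ 2 + 28 * X₁ ^ c + 2 + 16 * A * 4 ^ c) * (Y ^ (-c) * L) =
      ((Q₀ : ℝ) ^ 2 + 28 * X₁ ^ c + 2 + 16 * A * 4 ^ c) * Y ^ (-c) * L := by ring
  linarith

end Pool.Agent.K4H14.GQ
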