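import Mathlib
import Pool.Agent.Helper919.NonRes
import Pool.Agent.H376R2.MR.Selw

/-!
# Sums of Jacobi symbols over primes, with Selberg's weights
-/

set_option autoImplicit false

namespace Pool.Agent.K4H14.GQ

open Finset

/-- the Jacobi symbol `(m / n)` for odd `n`, and `0` for even `n` -/
noncomputable def Fj (m n : ℕ) : ℝ := if Odd n then ((jacobiSym (m : ℤ) n : ℤ) : ℝ) else 0

theorem Fj_mul_left (m m' n : ℕ) : Fj (m * m') n = Fj m n * Fj m' n := by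
  unfold Fj
  split_ifs
  · rw [Nat.cast_mul, jacobiSym.mul_left]
    push_cast
    ring
  · ring

theorem Fj_mul_right (m n n' : ℕ) : Fj m (n * n') = Fj m n * Fj m n' := by
  unfold Fj
  by_cases h : Odd n
  · by_cases h' : Odd n'
    · rw [if_pos h, if_pos h', if_pos (h.mul h')]
      have hn : n ≠ 0 := by rintro rfl; exact absurd h (by decide)
      have hn' : n' ≠ 0 := by rintro rfl; exact absurd h' (by decide)
      rw [jacobiSym.mul_right' _ hn hn']
      push_cast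
      ring
    · rw [if_neg h', if_neg (fun hh => h' (Nat.odd_mul.1 hh).2), mul_zero]
  · rw [if_neg h, if_neg (fun hh => h (Nat.odd_mul.1 hh).1), zero_mul]

theorem Fj_abs (m n : ℕ) : |Fj m n| ≤ 1 := by
  unfold Fj
  split_ifs
  · rcases jacobiSym.trichotomy (m : ℤ) n with h | h | h <;> rw [h] <;> norm_num
  · norm_num

theorem Fj_mod (m n : ℕ) : Fj m (n % (4 * m)) = Fj m n := by
  unfold Fj
  have h1 : Odd (n % (4 * m)) ↔ Odd n := by
    rw [Nat.odd_iff, Nat.odd_iff, Nat.mod_mod_of_dvd n ((by norm_num : 2 ∣ 4).mul_right m)]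
  by_cases h : Odd n
  · rw [if_pos h, if_pos (h1.2 h), ← jacobiSym.mod_right' m h]
  · rw [if_neg h, if_neg (fun hh => h (h1.1 hh))]

theorem sum_period (m : ℕ) (hm : 0 < m) (hsq : ¬ IsSquare m) : ∑ n ∈ range (4 * m), Fj m n = 0 := by
  have hsq' : ¬ IsSquare (m : ℤ) := by
    rintro ⟨r, hr⟩
    apply hsq
    refine ⟨r.natAbs, ?_⟩
    have : ((r.natAbs * r.natAbs : ℕ) : ℤ) = m := by rw [hr, Nat.cast_mul]; exact Int.natAbs_mul_self' r
    exact_mod_cast this.symm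
  obtain ⟨a, ha, hJ⟩ := Pool.Agent.Helper919.exists_jacobi_neg_one (m : ℤ) hsq'
  have hFa : Fj m a = -1 := by unfold Fj; rw [if_pos ha, hJ]; norm_num
  have hcop : Nat.Coprime a (4 * m) := by
    apply Nat.Coprime.mul_right
    · rw [show 4 = 2 ^ 2 by norm_num]
      exact (Nat.coprime_two_right.2 ha).pow_right 2
    · have hne : jacobiSym (m : ℤ) a ≠ 0 := by rw [hJ]; norm_num
      have ha0 : a ≠ 0 := by rintro rfl; exact absurd ha (by decide)
      have : NeZero a := ⟨ha0⟩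
      have h1 := mt jacobiSym.eq_zero_iff_not_coprime.2 hne
      rw [not_not] at h1
      have h2 : Nat.gcd m a = 1 := by
        rw [← Int.gcd_natCast_natCast]; exact h1
      exact (Nat.coprime_iff_gcd_eq_one.2 h2).symm
  have hM : 0 < 4 * m := by omega
  have hbij : ∑ n ∈ range (4 * m), Fj m ((a * n) % (4 * m)) = ∑ n ∈ range (4 * m), Fj m n := by
    apply sum_nbij (fun n => (a * n) % (4 * m))
    · intro n _
      exact mem_range.2 (Nat.mod_lt _ hM)
    · intro x hx y hy hxy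
      have h1 : (a * x) % (4 * m) = (a * y) % (4 * m) := hxy
      have h2 : x ≡ y [MOD 4 * m] := Nat.ModEq.cancel_left_of_coprime (by rw [Nat.gcd_comm]; exact hcop) h1
      have hx' := mem_range.1 hx
      have hy' := mem_range.1 hy
      exact (Nat.ModEq.eq_of_lt_of_lt h2 hx' hy')
    · apply surjOn_of_injOn_of_card_le
      · intro n _
        exact mem_coe.2 (mem_range.2 (Nat.mod_lt _ hM))
      · intro x hx y hy hxy
        have h1 : (a * x) % (4 * m) = (a * y) % (4 * m) := hxy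
        have h2 : x ≡ y [MOD 4 * m] := Nat.ModEq.cancel_left_of_coprime (by rw [Nat.gcd_comm]; exact hcop) h1
        have hx' := mem_range.1 (mem_coe.1 hx)
        have hy' := mem_range.1 (mem_coe.1 hy)
        exact (Nat.ModEq.eq_of_lt_of_lt h2 hx' hy')
      · exact le_rfl
    · intro n _
      rfl
  have h2 : ∑ n ∈ range (4 * m), Fj m ((a * n) % (4 * m)) = -∑ n ∈ range (4 * m), Fj m n := by
    rw [← sum_neg_distrib]
    apply sum_congr rfl
    intro n _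
    rw [Fj_mod m _, Fj_mul_right, hFa]
    ring
  linarith

theorem sum_range_le (m : ℕ) (hm : 0 < m) (hsq : ¬ IsSquare m) (T : ℕ) : |∑ n ∈ range T, Fj m n| ≤ 4 * m := by
  induction T using Nat.strong_induction_on with
  | _ T ih =>
    by_cases hT : T < 4 * m
    · refine (abs_sum_le_sum_abs _ _).trans ?_
      refine (sum_le_sum fun n _ => Fj_abs m n).trans ?_
      rw [sum_const, card_range, nsmul_eq_mul, mul_one]
      exact_mod_cast hT.le
    · push Not at hT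
      have h1 : ∑ n ∈ range T, Fj m n = ∑ n ∈ range (T - 4 * m), Fj m n := by
        obtain ⟨S, hS⟩ : ∃ S, S = T - 4 * m := ⟨_, rfl⟩
        have hT' : T = 4 * m + S := by omega
        rw [← hS, hT', sum_range_add, sum_period m hm hsq, zero_add]
        apply sum_congr rfl
        intro n _
        rw [← Fj_mod m (4 * m + n), Nat.add_mod_left, Fj_mod m n]
      rw [h1]
      exact ih _ (by omega)

theorem sum_Ioc_le (m : ℕ) (hm : 0 < m) (hsq : ¬ IsSquare m) (T : ℕ) : |∑ n ∈ Ioc 0 T, Fj m n| ≤ 4 * m := by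
  have h1 : ∑ n ∈ Ioc 0 T, Fj m n = ∑ n ∈ range (T + 1), Fj m n := by
    have h2 : range (T + 1) = insert 0 (Ioc 0 T) := by
      ext n
      simp only [mem_range, mem_insert, mem_Ioc]
      omega
    have h3 : Fj m 0 = 0 := by unfold Fj; rw [if_neg (by decide)]
    rw [h2, sum_insert (by simp), h3, zero_add]
  rw [h1]
  exact sum_range_le m hm hsq _

/-- the sum over the multiples of `L` -/
theorem sum_mult (m L Q : ℕ) (hL : 0 < L) :
    ∑ n ∈ (Ioc 0 Q).filter (fun n => L ∣ n), Fj m n = Fj m L * ∑ n ∈ Ioc 0 (Q / L), Fj m n := by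
  rw [mul_sum]
  symm
  apply sum_nbij (fun n => L * n)
  · intro n hn
    rw [mem_Ioc] at hn
    rw [mem_filter, mem_Ioc]
    refine ⟨⟨Nat.mul_pos hL hn.1, ?_⟩, dvd_mul_right _ _⟩
    calc L * n ≤ L * (Q / L) := Nat.mul_le_mul_left _ hn.2
      _ ≤ Q := Nat.mul_div_le _ _
  · intro x _ y _ hxy
    exact Nat.eq_of_mul_eq_mul_left hL hxy
  · intro n hn
    have hn' := mem_coe.1 hn
    rw [mem_filter, mem_Ioc] at hn'
    obtain ⟨⟨h1, h2⟩, r, hr⟩ := hn'
    refine ⟨r, ?_, hr.symm⟩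
    rw [mem_coe, mem_Ioc]
    constructor
    · rcases Nat.eq_zero_or_pos r with h0 | h0
      · rw [h0, mul_zero] at hr; omega
      · exact h0
    · rw [Nat.le_div_iff_mul_le hL, mul_comm]; omega
  · intro n _
    rw [Fj_mul_right]

/-- Selberg's weight -/
noncomputable def ww (l : ℕ → ℝ) (D n : ℕ) : ℝ := (∑ d ∈ (Icc 1 D).filter (fun d => d ∣ n), l d) ^ 2

theorem ww_nonneg (l : ℕ → ℝ) (D n : ℕ) : 0 ≤ ww l D n := sq_nonneg _

theorem ww_prime (l : ℕ → ℝ) (hl : l 1 = 1) (D q : ℕ) (hD : 1 ≤ D) (hq : q.Prime) (hDq : D < q) : ww l D q = 1 := by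
  unfold ww
  have h1 : (Icc 1 D).filter (fun d => d ∣ q) = {1} := by
    ext d
    simp only [mem_filter, mem_Icc, mem_singleton]
    constructor
    · rintro ⟨⟨h1, h2⟩, h3⟩
      rcases (Nat.dvd_prime hq).1 h3 with h | h
      · exact h
      · omega
    · rintro rfl
      exact ⟨⟨le_rfl, hD⟩, one_dvd _⟩
  rw [h1, sum_singleton, hl, one_pow]

/-- expansion of the weighted sum -/
theorem ww_sum (l : ℕ → ℝ) (D Q : ℕ) (g : ℕ → ℝ) :
    ∑ n ∈ Ioc 0 Q, ww l D n * g n = ∑ d ∈ Icc 1 D, ∑ e ∈ Icc 1 D, l d * l e * ∑ n ∈ (Ioc 0 Q).filter (fun n => Nat.lcm d e ∣ n), g n := by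
  have h1 : ∀ n ∈ Ioc 0 Q, ww l D n * g n = ∑ d ∈ Icc 1 D, ∑ e ∈ Icc 1 D, if Nat.lcm d e ∣ n then l d * l e * g n else 0 := by
    intro n _
    unfold ww
    rw [sq, sum_filter, sum_mul_sum, sum_mul]
    apply sum_congr rfl
    intro d _
    rw [sum_mul]
    apply sum_congr rfl
    intro e _
    by_cases hd : d ∣ n
    · by_cases he : e ∣ n
      · rw [if_pos hd, if_pos he, if_pos (Nat.lcm_dvd hd he)]
      · rw [if_pos hd, if_neg he, if_neg (fun h => he ((Nat.dvd_lcm_right d e).trans h))]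
        ring
    · rw [if_neg hd, if_neg (fun h => hd ((Nat.dvd_lcm_left d e).trans h))]
      ring
  rw [sum_congr rfl h1, sum_comm]
  apply sum_congr rfl
  intro d _
  rw [sum_comm]
  apply sum_congr rfl
  intro e _
  rw [← sum_filter, mul_sum]

theorem ww_nonsq (l : ℕ → ℝ) (hl : ∀ d, |l d| ≤ 1) (D Q m : ℕ) (hm : 0 < m) (hsq : ¬ IsSquare m) :
    |∑ n ∈ Ioc 0 Q, ww l D n * Fj m n| ≤ (D : ℝ) ^ 2 * (4 * m) := by
  rw [ww_sum]
  have h1 : ∀ d ∈ Icc 1 D, ∀ e ∈ Icc 1 D, |l d * l e * ∑ n ∈ (Ioc 0 Q).filter (fun n => Nat.lcm d e ∣ n), Fj m n| ≤ 4 * m := by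
    intro d hd e he
    rw [mem_Icc] at hd he
    rw [sum_mult m _ Q (Nat.lcm_pos (by omega) (by omega)), abs_mul, abs_mul, abs_mul]
    have a1 := hl d
    have a2 := hl e
    have a3 := Fj_abs m (Nat.lcm d e)
    have a4 := sum_Ioc_le m hm hsq (Q / Nat.lcm d e)
    calc |l d| * |l e| * (|Fj m (Nat.lcm d e)| * |∑ n ∈ Ioc 0 (Q / Nat.lcm d e), Fj m n|) ≤ 1 * 1 * (1 * (4 * m)) := by
          gcongr
      _ = 4 * m := by ring
  refine (abs_sum_le_sum_abs _ _).trans ?_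
  refine (sum_le_sum fun d hd => (abs_sum_le_sum_abs _ _).trans (sum_le_sum fun e he => h1 d hd e he)).trans ?_
  rw [sum_const, sum_const, Nat.card_Icc, nsmul_eq_mul, nsmul_eq_mul]
  rw [show D + 1 - 1 = D by omega]
  apply le_of_eq
  ring

theorem ww_total (l : ℕ → ℝ) (hl : ∀ d, |l d| ≤ 1) (D Q : ℕ) (hD : 2 ≤ D)
    (hs : ∑ d ∈ Icc 1 D, ∑ e ∈ Icc 1 D, l d * l e / (Nat.lcm d e : ℝ) ≤ 1 / Real.log D) :
    ∑ n ∈ Ioc 0 Q, ww l D n ≤ Q / Real.log D + (D : ℝ) ^ 2 := by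
  have h0 := ww_sum l D Q (fun _ => 1)
  simp only [mul_one, sum_const, nsmul_eq_mul] at h0
  rw [h0]
  have h1 : ∀ d ∈ Icc 1 D, ∀ e ∈ Icc 1 D, l d * l e * (((Ioc 0 Q).filter (fun n => Nat.lcm d e ∣ n)).card : ℝ) ≤
      Q * (l d * l e / (Nat.lcm d e : ℝ)) + 1 := by
    intro d hd e he
    rw [mem_Icc] at hd he
    have hL : 0 < Nat.lcm d e := Nat.lcm_pos (by omega) (by omega)
    have hLr : (0 : ℝ) < Nat.lcm d e := by exact_mod_cast hL
    rw [Nat.Ioc_filter_dvd_card_eq_div]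
    have h2 : ((Q / Nat.lcm d e : ℕ) : ℝ) ≤ Q / (Nat.lcm d e : ℝ) := Nat.cast_div_le
    have h3 : (Q : ℝ) / (Nat.lcm d e : ℝ) - 1 ≤ ((Q / Nat.lcm d e : ℕ) : ℝ) := by
      have h4 : Q < Nat.lcm d e * (Q / Nat.lcm d e + 1) := Nat.lt_mul_div_succ Q hL
      have h5 : (Q : ℝ) < (Nat.lcm d e : ℝ) * (((Q / Nat.lcm d e : ℕ) : ℝ) + 1) := by exact_mod_cast h4
      have h6 : (Q : ℝ) / (Nat.lcm d e : ℝ) < ((Q / Nat.lcm d e : ℕ) : ℝ) + 1 := by
        rw [div_lt_iff₀ hLr, mul_comm]; exact h5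
      linarith
    have h7 : |l d * l e| ≤ 1 := by
      rw [abs_mul]
      have := mul_le_mul (hl d) (hl e) (abs_nonneg _) zero_le_one
      linarith
    have h8 : |((Q / Nat.lcm d e : ℕ) : ℝ) - Q / (Nat.lcm d e : ℝ)| ≤ 1 := by
      rw [abs_le]; constructor <;> linarith
    have h9 : |l d * l e * (((Q / Nat.lcm d e : ℕ) : ℝ) - Q / (Nat.lcm d e : ℝ))| ≤ 1 := by
      rw [abs_mul]
      have := mul_le_mul h7 h8 (abs_nonneg _) zero_le_one
      linarith
    have h10 := (abs_le.1 h9).2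
    have h11 : l d * l e * (((Q / Nat.lcm d e : ℕ) : ℝ) - Q / (Nat.lcm d e : ℝ)) =
      l d * l e * ((Q / Nat.lcm d e : ℕ) : ℝ) - Q * (l d * l e / (Nat.lcm d e : ℝ)) := by ring
    rw [h11] at h10
    linarith
  refine (sum_le_sum fun d hd => sum_le_sum fun e he => h1 d hd e he).trans ?_
  have h2 : ∑ d ∈ Icc 1 D, ∑ e ∈ Icc 1 D, ((Q : ℝ) * (l d * l e / (Nat.lcm d e : ℝ)) + 1) =
      Q * (∑ d ∈ Icc 1 D, ∑ e ∈ Icc 1 D, l d * l e / (Nat.lcm d e : ℝ)) + (D : ℝ) ^ 2 := by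
    simp only [sum_add_distrib, ← mul_sum, sum_const, Nat.card_Icc, nsmul_eq_mul, mul_one]
    rw [show D + 1 - 1 = D by omega]
    ring
  rw [h2]
  have h3 := mul_le_mul_of_nonneg_left hs (Nat.cast_nonneg (α := ℝ) Q)
  rw [mul_one_div] at h3
  linarith

/-- the large sieve inequality for primes, positive form -/
theorem sieve (D Q : ℕ) (hD : 2 ≤ D) {ι : Type} (S : Finset ι) (c : ι → ℝ) (m : ι → ℕ) (M : ℝ)
    (hm : ∀ i ∈ S, 0 < m i ∧ (m i : ℝ) ≤ M) :
    ∑ q ∈ (Ioc D Q).filter Nat.Prime, (∑ i ∈ S, c i * ((jacobiSym (m i : ℤ) q : ℤ) : ℝ)) ^ 2 ≤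
      open Classical in (Q / Real.log D + (D : ℝ) ^ 2) * (∑ i ∈ S, ∑ j ∈ S, if IsSquare (m i * m j) then |c i| * |c j| else 0) +
      4 * M ^ 2 * (D : ℝ) ^ 2 * (∑ i ∈ S, |c i|) ^ 2 := by
  classical
  obtain ⟨l, hl1, hlabs, _, _, _, hs⟩ := Pool.Agent.H376R2.MR.sel_weights D hD
  have hlog : 0 < Real.log D := Real.log_pos (by exact_mod_cast (by omega : 1 < D))
  have hA : 0 ≤ Q / Real.log D + (D : ℝ) ^ 2 := by positivity
  -- primes
  have h1 : ∑ q ∈ (Ioc D Q).filter Nat.Prime, (∑ i ∈ S, c i * ((jacobiSym (m i : ℤ) q : ℤ) : ℝ)) ^ 2 ≤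
      ∑ n ∈ Ioc 0 Q, ww l D n * (∑ i ∈ S, c i * Fj (m i) n) ^ 2 := by
    have h2 : ∀ q ∈ (Ioc D Q).filter Nat.Prime, (∑ i ∈ S, c i * ((jacobiSym (m i : ℤ) q : ℤ) : ℝ)) ^ 2 =
        ww l D q * (∑ i ∈ S, c i * Fj (m i) q) ^ 2 := by
      intro q hq
      rw [mem_filter, mem_Ioc] at hq
      rw [ww_prime l hl1 D q (by omega) hq.2 hq.1.1, one_mul]
      congr 1
      apply sum_congr rfl
      intro i _
      unfold Fj
      rw [if_pos (hq.2.odd_of_ne_two (by omega))]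
    rw [sum_congr rfl h2]
    apply sum_le_sum_of_subset_of_nonneg
    · intro q hq
      rw [mem_filter, mem_Ioc] at hq
      rw [mem_Ioc]
      omega
    · intro n _ _
      exact mul_nonneg (ww_nonneg _ _ _) (sq_nonneg _)
  refine h1.trans ?_
  -- expand
  have h3 : ∑ n ∈ Ioc 0 Q, ww l D n * (∑ i ∈ S, c i * Fj (m i) n) ^ 2 =
      ∑ i ∈ S, ∑ j ∈ S, c i * c j * ∑ n ∈ Ioc 0 Q, ww l D n * Fj (m i * m j) n := by
    have h4 : ∀ n ∈ Ioc 0 Q, ww l D n * (∑ i ∈ S, c i * Fj (m i) n) ^ 2 =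
        ∑ i ∈ S, ∑ j ∈ S, c i * c j * (ww l D n * Fj (m i * m j) n) := by
      intro n _
      rw [sq, sum_mul_sum, mul_sum]
      apply sum_congr rfl
      intro i _
      rw [mul_sum]
      apply sum_congr rfl
      intro j _
      rw [Fj_mul_left]
      ring
    rw [sum_congr rfl h4, sum_comm]
    apply sum_congr rfl
    intro i _
    rw [sum_comm]
    apply sum_congr rfl
    intro j _
    rw [mul_sum]
  rw [h3]
  have h5 : ∀ i ∈ S, ∀ j ∈ S, c i * c j * ∑ n ∈ Ioc 0 Q, ww l D n * Fj (m i * m j) n ≤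
      (Q / Real.log D + (D : ℝ) ^ 2) * (if IsSquare (m i * m j) then |c i| * |c j| else 0) +
      4 * M ^ 2 * (D : ℝ) ^ 2 * (|c i| * |c j|) := by
    intro i hi j hj
    obtain ⟨hi1, hi2⟩ := hm i hi
    obtain ⟨hj1, hj2⟩ := hm j hj
    have hM0 : 0 ≤ M := le_trans (Nat.cast_nonneg _) hi2
    have hcc : 0 ≤ |c i| * |c j| := by positivity
    refine (le_abs_self _).trans ?_
    rw [abs_mul, abs_mul]
    split_ifs with hsq
    · have h6 : |∑ n ∈ Ioc 0 Q, ww l D n * Fj (m i * m j) n| ≤ Q / Real.log D + (D : ℝ) ^ 2 := by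
        refine le_trans ?_ (ww_total l hlabs D Q hD hs)
        refine (abs_sum_le_sum_abs _ _).trans (sum_le_sum fun n _ => ?_)
        rw [abs_mul, abs_of_nonneg (ww_nonneg _ _ _)]
        exact mul_le_of_le_one_right (ww_nonneg _ _ _) (Fj_abs _ _)
      have h7 := mul_le_mul_of_nonneg_left h6 hcc
      have h8 : 0 ≤ 4 * M ^ 2 * (D : ℝ) ^ 2 * (|c i| * |c j|) := by positivity
      linarith
    · have h6 := ww_nonsq l hlabs D Q (m i * m j) (Nat.mul_pos hi1 hj1) hsq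
      have h7 : ((m i * m j : ℕ) : ℝ) ≤ M ^ 2 := by
        push_cast
        rw [sq]
        exact mul_le_mul hi2 hj2 (Nat.cast_nonneg _) hM0
      have h8 : (D : ℝ) ^ 2 * (4 * ((m i * m j : ℕ) : ℝ)) ≤ 4 * M ^ 2 * (D : ℝ) ^ 2 := by
        have := mul_le_mul_of_nonneg_left h7 (by positivity : (0 : ℝ) ≤ 4 * (D : ℝ) ^ 2)
        linarith
      have h9 := mul_le_mul_of_nonneg_left (h6.trans h8) hcc
      linarith
  refine (sum_le_sum fun i hi => sum_le_sum fun j hj => h5 i hi j hj).trans ?_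
  apply le_of_eq
  simp only [sum_add_distrib, ← mul_sum]
  congr 1
  rw [sq (∑ i ∈ S, |c i|), sum_mul_sum]
  simp only [← mul_sum]

end Pool.Agent.K4H14.GQ
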