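import Pool.Agent.K4H14.GQ.Twist

/-!
# Few primes are exceptional
-/

set_option autoImplicit false

namespace Pool.Agent.K4H14.GQ

open Finset
open Pool.Agent.K4H14.GC

theorem good_bad (K b : ℕ) (κ : ℝ) (hκ : 0 < κ) (hκK : κ * (2 * K) ≤ 1) :
    ∃ A : ℝ, 0 ≤ A ∧ ∀ g : ℕ → ℝ, SF g → ∀ v i D Q : ℕ, 2 ^ b ≤ i → i < 2 ^ (b + 1) → 2 ≤ D → (D : ℝ) ^ 2 * Real.log D ≤ Q →
      4 * (D : ℝ) ^ 2 * (9 * ((i * 2 ^ v : ℕ) : ℝ)) ^ (4 * K + 2) * Real.log D ≤ Q →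
      ((PQ D Q (fun q => ¬ Good K (2 ^ b) κ (tw g q) (i * 2 ^ v))).card : ℝ) ≤
        A * (Q / Real.log D) * (((v : ℝ) + (b + 1)) * ((2 : ℝ) ^ v) ^ (-(κ / 8))) := by
  classical
  -- constants
  have hC : ∀ k R : ℕ, ∃ C : ℝ, 0 ≤ C ∧ (1 ≤ k → k ≤ K → 1 ≤ R → R ≤ 8 → ∀ g : ℕ → ℝ, SF g → ∀ N h D Q : ℕ, 1 ≤ N → (N : ℝ) ^ κ ≤ h → (h : ℝ) * (N : ℝ) ^ κ ≤ N →
      2 ≤ D → (D : ℝ) ^ 2 * Real.log D ≤ Q → 4 * (D : ℝ) ^ 2 * (9 * (N : ℝ)) ^ (4 * k + 2) * Real.log D ≤ Q →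
      ((PQ D Q (fun q => ¬ |Bt N R h k (tw g q)| ≤ (N : ℝ) ^ (1 - κ / 16) * Real.sqrt h ^ k)).card : ℝ) ≤
        C * (Q / Real.log D) * (N : ℝ) ^ (-(κ / 8))) := by
    intro k R
    by_cases hk : 1 ≤ k ∧ k ≤ K ∧ 1 ≤ R ∧ R ≤ 8
    · obtain ⟨C, hC, h1⟩ := prime_bad k R hk.1 hk.2.2.1 hk.2.2.2 κ hκ (by
        refine le_trans (mul_le_mul_of_nonneg_left ?_ hκ.le) hκK
        have : (k : ℝ) ≤ K := by exact_mod_cast hk.2.1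
        linarith)
      exact ⟨C, hC, fun _ _ _ _ => h1⟩
    · exact ⟨0, le_rfl, fun h1 h2 h3 h4 => absurd ⟨h1, h2, h3, h4⟩ hk⟩
  choose C hC0 hprob using hC
  obtain ⟨E, hE⟩ : ∃ E : ℝ, E = ∑ k ∈ range (K + 1), (C k 2 + C k 8) := ⟨_, rfl⟩
  have hE0 : 0 ≤ E := by rw [hE]; exact sum_nonneg fun u _ => add_nonneg (hC0 u 2) (hC0 u 8)
  have hCE : ∀ k ≤ K, ∀ R, (R = 2 ∨ R = 8) → C k R ≤ E := fun k hk R hR => by
    have h1 : C k 2 + C k 8 ≤ E := by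
      rw [hE]
      exact single_le_sum (f := fun k => C k 2 + C k 8) (fun v _ => add_nonneg (hC0 v 2) (hC0 v 8)) (mem_range.2 (by omega))
    have h2 := hC0 k 2
    have h3 := hC0 k 8
    rcases hR with rfl | rfl <;> linarith
  refine ⟨((K : ℝ) + 1) * 2 * (2 * 2 ^ b) * E, by positivity, ?_⟩
  intro g hg v i D Q hi1 hi2 hD hD2 hD3
  have hlog : 0 < Real.log D := Real.log_pos (by exact_mod_cast (by omega : 1 < D))
  have hL0 : (0 : ℝ) ≤ Q / Real.log D := by positivity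
  obtain ⟨N, hN⟩ : ∃ N, N = i * 2 ^ v := ⟨_, rfl⟩
  rw [← hN] at hD3 ⊢
  have hvN : 2 ^ v ≤ N := by rw [hN]; exact Nat.le_mul_of_pos_left _ (lt_of_lt_of_le (by positivity) hi1)
  have hN1 : 1 ≤ N := le_trans Nat.one_le_two_pow hvN
  have hNr : (1 : ℝ) ≤ N := by exact_mod_cast hN1
  have hvNr : (2 : ℝ) ^ v ≤ N := by exact_mod_cast hvN
  obtain ⟨I, hI⟩ : ∃ I : Finset (ℕ × ℕ × ℕ × ℕ), I = (range (K + 1)) ×ˢ ({2, 8} : Finset ℕ) ×ˢ (range (2 * 2 ^ b)) ×ˢ (range (v + b + 1)) := ⟨_, rfl⟩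
  obtain ⟨bad, hbad⟩ : ∃ bad : (ℕ × ℕ × ℕ × ℕ) → Finset ℕ, bad = fun x =>
    if 1 ≤ x.1 ∧ x.1 ≤ K ∧ (x.2.1 = 2 ∨ x.2.1 = 8) ∧ (N : ℝ) ^ κ ≤ ((x.2.2.1 * 2 ^ x.2.2.2 : ℕ) : ℝ) ∧
        ((x.2.2.1 * 2 ^ x.2.2.2 : ℕ) : ℝ) * (N : ℝ) ^ κ ≤ N
      then PQ D Q (fun q => ¬ |Bt N x.2.1 (x.2.2.1 * 2 ^ x.2.2.2) x.1 (tw g q)| ≤
        (N : ℝ) ^ (1 - κ / 16) * Real.sqrt ((x.2.2.1 * 2 ^ x.2.2.2 : ℕ) : ℝ) ^ x.1)
      else ∅ := ⟨_, rfl⟩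
  have hsub : PQ D Q (fun q => ¬ Good K (2 ^ b) κ (tw g q) N) ⊆ I.biUnion bad := by
    intro q hq
    rw [mem_PQ] at hq
    obtain ⟨hq1, hq2, hq3⟩ := hq
    by_contra hcon
    apply hq3
    intro k hk1 hk2 R hR j s hj hc1 hc2
    by_contra hcon2
    apply hcon
    rw [mem_biUnion]
    refine ⟨(k, R, j, s), ?_, ?_⟩
    · rw [hI]
      simp only [mem_product, mem_range, mem_insert, mem_singleton]
      refine ⟨by omega, hR, hj, ?_⟩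
      have hk1' : (1 : ℝ) ≤ (N : ℝ) ^ κ := Real.one_le_rpow hNr hκ.le
      have hj1 : 1 ≤ j := by
        rcases Nat.eq_zero_or_pos j with h0 | h0
        · rw [h0, zero_mul, Nat.cast_zero] at hc1
          linarith
        · exact h0
      have h1 : ((j * 2 ^ s : ℕ) : ℝ) ≤ N := le_trans (le_mul_of_one_le_right (Nat.cast_nonneg _) hk1') hc2
      have h2 : j * 2 ^ s ≤ N := by exact_mod_cast h1
      have h3 : 2 ^ s < 2 ^ (v + b + 1) := by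
        calc 2 ^ s ≤ j * 2 ^ s := Nat.le_mul_of_pos_left _ hj1
          _ ≤ i * 2 ^ v := by rw [← hN]; exact h2
          _ < 2 ^ (b + 1) * 2 ^ v := Nat.mul_lt_mul_of_pos_right hi2 (by positivity)
          _ = 2 ^ (v + b + 1) := by rw [← pow_add]; congr 1; ring
      exact (Nat.pow_lt_pow_iff_right (by norm_num : 1 < 2)).1 h3
    · rw [hbad]
      simp only
      rw [if_pos ⟨hk1, hk2, hR, hc1, hc2⟩, mem_PQ]
      exact ⟨hq1, hq2, hcon2⟩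
  have hone : ∀ x ∈ I, ((bad x).card : ℝ) ≤ E * (Q / Real.log D) * ((2 : ℝ) ^ v) ^ (-(κ / 8)) := by
    intro x _
    rw [hbad]
    simp only
    split_ifs with hc
    · obtain ⟨c1, c2, c3, c4, c5⟩ := hc
      have hD3' : 4 * (D : ℝ) ^ 2 * (9 * (N : ℝ)) ^ (4 * x.1 + 2) * Real.log D ≤ Q := by
        refine le_trans ?_ hD3
        apply mul_le_mul_of_nonneg_right _ hlog.le
        apply mul_le_mul_of_nonneg_left _ (by positivity)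
        exact pow_le_pow_right₀ (by linarith) (by omega)
      refine (hprob x.1 x.2.1 c1 c2 (by omega) (by omega) g hg N _ D Q hN1 c4 c5 hD hD2 hD3').trans ?_
      apply mul_le_mul _ _ (by positivity) (mul_nonneg hE0 hL0)
      · exact mul_le_mul_of_nonneg_right (hCE _ c2 _ c3) hL0
      · exact Real.rpow_le_rpow_of_nonpos (by positivity) hvNr (by linarith)
    · rw [card_empty, Nat.cast_zero]
      positivity
  have hcard : (I.card : ℝ) = ((K : ℝ) + 1) * 2 * (2 * 2 ^ b) * ((v : ℝ) + (b + 1)) := by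
    have h2 : I.card = (K + 1) * (2 * (2 * 2 ^ b * (v + b + 1))) := by
      rw [hI]
      simp only [card_product, card_range]
      rfl
    rw [h2]
    push_cast
    ring
  calc ((PQ D Q (fun q => ¬ Good K (2 ^ b) κ (tw g q) N)).card : ℝ) ≤ ((I.biUnion bad).card : ℝ) := by
        exact_mod_cast card_le_card hsub
    _ ≤ ∑ x ∈ I, ((bad x).card : ℝ) := by exact_mod_cast card_biUnion_le
    _ ≤ ∑ _x ∈ I, E * (Q / Real.log D) * ((2 : ℝ) ^ v) ^ (-(κ / 8)) := sum_le_sum hone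
    _ = (I.card : ℝ) * (E * (Q / Real.log D) * ((2 : ℝ) ^ v) ^ (-(κ / 8))) := by rw [sum_const, nsmul_eq_mul]
    _ = _ := by rw [hcard]; ring

theorem all_bad (K b : ℕ) (κ : ℝ) (hκ : 0 < κ) (hκK : κ * (2 * K) ≤ 1) :
    ∃ A : ℝ, 0 ≤ A ∧ ∀ g : ℕ → ℝ, SF g → ∀ (Y : ℝ) (Z D Q : ℕ), 0 < Y → 2 ≤ D → (D : ℝ) ^ 2 * Real.log D ≤ Q →
      4 * (D : ℝ) ^ 2 * (9 * (Z : ℝ)) ^ (4 * K + 2) * Real.log D ≤ Q →
      ((PQ D Q (fun q => ∃ v i : ℕ, 2 ^ b ≤ i ∧ i < 2 ^ (b + 1) ∧ Y ≤ ((i * 2 ^ v : ℕ) : ℝ) ∧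
        i * 2 ^ v ≤ Z ∧ ¬ Good K (2 ^ b) κ (tw g q) (i * 2 ^ v))).card : ℝ) ≤
        A * (Q / Real.log D) * Y ^ (-(κ / 16)) := by
  classical
  obtain ⟨A, hA, h1⟩ := good_bad K b κ hκ hκK
  have hsum := summable_aux (κ / 16) (b + 1) 1 (by positivity)
  obtain ⟨S, hS⟩ : ∃ S : ℝ, S = ∑' v : ℕ, 1 * ((v : ℝ) + (b + 1)) * ((2 : ℝ) ^ (v : ℕ)) ^ (-(κ / 16)) := ⟨_, rfl⟩
  have hS0 : 0 ≤ S := by rw [hS]; exact tsum_nonneg fun v => by positivity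
  have hfin : ∀ T : ℕ, ∑ v ∈ range T, ((v : ℝ) + (b + 1)) * ((2 : ℝ) ^ (v : ℕ)) ^ (-(κ / 16)) ≤ S := by
    intro T
    rw [hS]
    refine le_trans (le_of_eq ?_) (hsum.sum_le_tsum (range T) (fun v _ => by positivity))
    apply sum_congr rfl
    intro v _
    ring
  refine ⟨A * 2 ^ (b + 1) * ((2 : ℝ) ^ (b + 1)) ^ (κ / 16) * S, by positivity, ?_⟩
  intro g hg Y Z D Q hY hD hD2 hD3
  have hlog : 0 < Real.log D := Real.log_pos (by exact_mod_cast (by omega : 1 < D))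
  have hL0 : (0 : ℝ) ≤ Q / Real.log D := by positivity
  obtain ⟨I, hI⟩ : ∃ I : Finset (ℕ × ℕ), I = ((range (Z + 1)) ×ˢ (range (2 ^ (b + 1)))).filter
    (fun x => 2 ^ b ≤ x.2 ∧ Y ≤ ((x.2 * 2 ^ x.1 : ℕ) : ℝ) ∧ x.2 * 2 ^ x.1 ≤ Z) := ⟨_, rfl⟩
  obtain ⟨bad, hbad⟩ : ∃ bad : ℕ × ℕ → Finset ℕ, bad = fun x => PQ D Q (fun q => ¬ Good K (2 ^ b) κ (tw g q) (x.2 * 2 ^ x.1)) :=
    ⟨_, rfl⟩
  have hsub : PQ D Q (fun q => ∃ v i : ℕ, 2 ^ b ≤ i ∧ i < 2 ^ (b + 1) ∧ Y ≤ ((i * 2 ^ v : ℕ) : ℝ) ∧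
        i * 2 ^ v ≤ Z ∧ ¬ Good K (2 ^ b) κ (tw g q) (i * 2 ^ v)) ⊆ I.biUnion bad := by
    intro q hq
    rw [mem_PQ] at hq
    obtain ⟨hq1, hq2, v, i, a1, a2, a3, a4, a5⟩ := hq
    rw [mem_biUnion]
    refine ⟨(v, i), ?_, ?_⟩
    · rw [hI, mem_filter, mem_product, mem_range, mem_range]
      refine ⟨⟨?_, a2⟩, a1, a3, a4⟩
      have b1 : 2 ^ v ≤ i * 2 ^ v := Nat.le_mul_of_pos_left _ (lt_of_lt_of_le (by positivity) a1)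
      have b2 : v < 2 ^ v := Nat.lt_two_pow_self
      simp only
      omega
    · rw [hbad]
      simp only [mem_PQ]
      exact ⟨hq1, hq2, a5⟩
  have hone : ∀ x ∈ I, ((bad x).card : ℝ) ≤ (A * (Q / Real.log D) * (((2 : ℝ) ^ (b + 1)) ^ (κ / 16) * Y ^ (-(κ / 16)))) *
      (((x.1 : ℝ) + (b + 1)) * ((2 : ℝ) ^ x.1) ^ (-(κ / 16))) := by
    intro x hx
    rw [hI, mem_filter, mem_product, mem_range, mem_range] at hx
    obtain ⟨⟨_, a2⟩, a1, a3, a4⟩ := hx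
    have hN1 : 1 ≤ x.2 * 2 ^ x.1 := Nat.mul_pos (lt_of_lt_of_le (by positivity) a1) (by positivity)
    have hD3' : 4 * (D : ℝ) ^ 2 * (9 * ((x.2 * 2 ^ x.1 : ℕ) : ℝ)) ^ (4 * K + 2) * Real.log D ≤ Q := by
      refine le_trans ?_ hD3
      apply mul_le_mul_of_nonneg_right _ hlog.le
      apply mul_le_mul_of_nonneg_left _ (by positivity)
      apply pow_le_pow_left₀ (by positivity)
      have : ((x.2 * 2 ^ x.1 : ℕ) : ℝ) ≤ Z := by exact_mod_cast a4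
      linarith
    rw [hbad]
    simp only
    refine (h1 g hg x.1 x.2 D Q a1 a2 hD hD2 hD3').trans ?_
    -- (2^v)^(-κ/8) ≤ (Y / 2^(b+1))^(-κ/16) (2^v)^(-κ/16)
    have hv0 : (0 : ℝ) < (2 : ℝ) ^ x.1 := by positivity
    have hb0 : (0 : ℝ) < (2 : ℝ) ^ (b + 1) := by positivity
    have e1 : ((2 : ℝ) ^ x.1) ^ (-(κ / 8)) = ((2 : ℝ) ^ x.1) ^ (-(κ / 16)) * ((2 : ℝ) ^ x.1) ^ (-(κ / 16)) := by
      rw [← Real.rpow_add hv0]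
      congr 1
      ring
    have e2 : ((2 : ℝ) ^ x.1) ^ (-(κ / 16)) ≤ ((2 : ℝ) ^ (b + 1)) ^ (κ / 16) * Y ^ (-(κ / 16)) := by
      have e3 : Y ≤ (2 : ℝ) ^ (b + 1) * 2 ^ x.1 := by
        refine a3.trans ?_
        have : x.2 * 2 ^ x.1 ≤ 2 ^ (b + 1) * 2 ^ x.1 := Nat.mul_le_mul_right _ a2.le
        exact_mod_cast this
      have e4 : ((2 : ℝ) ^ (b + 1) * 2 ^ x.1) ^ (-(κ / 16)) ≤ Y ^ (-(κ / 16)) := Real.rpow_le_rpow_of_nonpos hY e3 (by linarith)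
      rw [Real.mul_rpow hb0.le hv0.le] at e4
      have e5 := mul_le_mul_of_nonneg_left e4 (by positivity : (0 : ℝ) ≤ ((2 : ℝ) ^ (b + 1)) ^ (κ / 16))
      refine le_trans (le_of_eq ?_) e5
      rw [← mul_assoc, ← Real.rpow_add hb0]
      simp
    rw [e1]
    have e6 : 0 ≤ A * (Q / Real.log D) := mul_nonneg hA hL0
    have e7 : 0 ≤ ((x.1 : ℝ) + (b + 1)) * ((2 : ℝ) ^ x.1) ^ (-(κ / 16)) := by positivity
    have e8 := mul_le_mul_of_nonneg_left e2 (mul_nonneg e6 e7)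
    refine le_trans (le_of_eq ?_) (e8.trans (le_of_eq ?_))
    · ring
    · ring
  have hsumI : ∑ x ∈ I, (((x.1 : ℝ) + (b + 1)) * ((2 : ℝ) ^ x.1) ^ (-(κ / 16))) ≤ 2 ^ (b + 1) * S := by
    calc ∑ x ∈ I, (((x.1 : ℝ) + (b + 1)) * ((2 : ℝ) ^ x.1) ^ (-(κ / 16)))
        ≤ ∑ x ∈ (range (Z + 1)) ×ˢ (range (2 ^ (b + 1))), (((x.1 : ℝ) + (b + 1)) * ((2 : ℝ) ^ x.1) ^ (-(κ / 16))) := by
          apply sum_le_sum_of_subset_of_nonneg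
          · rw [hI]; exact filter_subset _ _
          · intro x _ _; positivity
      _ = (2 : ℝ) ^ (b + 1) * ∑ v ∈ range (Z + 1), (((v : ℝ) + (b + 1)) * ((2 : ℝ) ^ v) ^ (-(κ / 16))) := by
          rw [sum_product, mul_sum]
          apply sum_congr rfl
          intro v _
          change ∑ _y ∈ range (2 ^ (b + 1)), (((v : ℝ) + (b + 1)) * ((2 : ℝ) ^ v) ^ (-(κ / 16))) = _
          rw [sum_const, card_range, nsmul_eq_mul]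
          push_cast
          rfl
      _ ≤ _ := mul_le_mul_of_nonneg_left (hfin _) (by positivity)
  calc _ ≤ ((I.biUnion bad).card : ℝ) := by exact_mod_cast card_le_card hsub
    _ ≤ ∑ x ∈ I, ((bad x).card : ℝ) := by exact_mod_cast card_biUnion_le
    _ ≤ ∑ x ∈ I, (A * (Q / Real.log D) * (((2 : ℝ) ^ (b + 1)) ^ (κ / 16) * Y ^ (-(κ / 16)))) *
      (((x.1 : ℝ) + (b + 1)) * ((2 : ℝ) ^ x.1) ^ (-(κ / 16))) := sum_le_sum hone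
    _ = (A * (Q / Real.log D) * (((2 : ℝ) ^ (b + 1)) ^ (κ / 16) * Y ^ (-(κ / 16)))) *
      ∑ x ∈ I, (((x.1 : ℝ) + (b + 1)) * ((2 : ℝ) ^ x.1) ^ (-(κ / 16))) := by rw [mul_sum]
    _ ≤ (A * (Q / Real.log D) * (((2 : ℝ) ^ (b + 1)) ^ (κ / 16) * Y ^ (-(κ / 16)))) * (2 ^ (b + 1) * S) := by
        apply mul_le_mul_of_nonneg_left hsumI
        positivity
    _ = _ := by ring

end Pool.Agent.K4H14.GQ
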