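import Pool.Agent.K4H14.GC.ToReal2
import Pool.Agent.K4H14.GQ.Twist2

/-!
# The normal law for almost all quadratic twists
-/

set_option autoImplicit false

namespace Pool.Agent.K4H14.GQ

open Finset MeasureTheory ProbabilityTheory Filter
open Pool.Agent.K4H14.GC

/-- the passage from the discrete to the continuous statement at one scale -/
theorem real_step (ε δ : ℝ) (hε : 0 < ε) (hδ : 0 < δ) : ∃ X₀ : ℝ, 2 ≤ X₀ ∧ ∀ X : ℝ, X₀ ≤ X → ∀ f : ℕ → ℝ, (∀ n, |f n| ≤ 1) →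
    (∀ h : ℕ, (⌊X⌋₊ : ℝ) ^ (ε / 2) ≤ h → (h : ℝ) ≤ (⌊X⌋₊ : ℝ) ^ (1 - ε / 2) → ∀ x : ℝ,
      |(((Ioc ⌊X⌋₊ (2 * ⌊X⌋₊)).filter (fun n => W f h n ≤ x * sg h)).card : ℝ) - ⌊X⌋₊ * Ph x| ≤ δ / 8 * ⌊X⌋₊) →
    ∀ H : ℝ, X ^ ε ≤ H → H ≤ X ^ (1 - ε) → ∀ t : ℝ, |(volume (VV f X H t)).toReal / X - Ph t| ≤ δ := by
  -- large X
  have hpow : ∀ a B : ℝ, 0 < a → ∀ᶠ X : ℝ in atTop, B ≤ X ^ a := fun a B ha => (tendsto_rpow_atTop ha).eventually_ge_atTop B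
  have hev : ∀ᶠ X : ℝ in atTop, (2 : ℝ) ≤ X ∧ 56 / δ ≤ X ∧ 4 ≤ X ^ (ε / 2) ∧ 2 * (40 / δ) ^ 2 + 2 ≤ X ^ ε ∧ 8 / δ ≤ X ^ ε := by
    filter_upwards [eventually_ge_atTop (2 : ℝ), eventually_ge_atTop (56 / δ), hpow (ε / 2) 4 (by positivity),
      hpow ε (2 * (40 / δ) ^ 2 + 2) hε, hpow ε (8 / δ) hε] with X h1 h2 h3 h4 h5
    exact ⟨h1, h2, h3, h4, h5⟩
  obtain ⟨X₀, hX₀⟩ := eventually_atTop.1 hev
  refine ⟨max X₀ 2, le_max_right _ _, ?_⟩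
  intro X hXX0 f hf hdisc H h1 h2 t
  obtain ⟨hX2, hX3, hX4, hX5, hX6⟩ := hX₀ X ((le_max_left _ _).trans hXX0)
  have hX0 : (2 : ℝ) ≤ X := hX2
  have hXp : (0 : ℝ) < X := by linarith
  have hX1' : (1 : ℝ) ≤ X := by linarith
  have hH1 : 1 ≤ H := by
    have : (1 : ℝ) ≤ X ^ ε := Real.one_le_rpow hX1' hε.le
    linarith
  have hXX : X ^ (1 - ε) * X ^ ε = X := by
    rw [← Real.rpow_add hXp, show 1 - ε + ε = (1 : ℝ) by ring, Real.rpow_one]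
  have hXe1 : (1 : ℝ) ≤ X ^ ε := Real.one_le_rpow hX1' hε.le
  have hHX : H ≤ X := by
    have : X ^ (1 - ε) ≤ X := by
      calc X ^ (1 - ε) ≤ X ^ (1 - ε) * X ^ ε := le_mul_of_one_le_right (by positivity) hXe1
        _ = X := hXX
    linarith
  obtain ⟨N, hN⟩ : ∃ N, N = ⌊X⌋₊ := ⟨_, rfl⟩
  obtain ⟨h, hh⟩ : ∃ h, h = ⌊H⌋₊ := ⟨_, rfl⟩
  have hN1 : (N : ℝ) ≤ X := by rw [hN]; exact Nat.floor_le (by linarith)
  have hN2 : X < N + 1 := by rw [hN]; exact Nat.lt_floor_add_one _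
  have hh1 : (h : ℝ) ≤ H := by rw [hh]; exact Nat.floor_le (by linarith)
  have hh2 : H < h + 1 := by rw [hh]; exact Nat.lt_floor_add_one _
  have hNp : (0 : ℝ) < N := by linarith
  have hNhalf : X ≤ 2 * N := by linarith
  have hsplit : X ^ (ε / 2) * X ^ (ε / 2) = X ^ ε := by
    rw [← Real.rpow_add hXp]; congr 1; ring
  have hc1 : (N : ℝ) ^ (ε / 2) ≤ h := by
    have a1 : (N : ℝ) ^ (ε / 2) ≤ X ^ (ε / 2) := Real.rpow_le_rpow hNp.le hN1 (by linarith)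
    nlinarith
  have hc2 : (h : ℝ) ≤ (N : ℝ) ^ (1 - ε / 2) := by
    have a1 : X ^ (1 - ε) * 2 ≤ X ^ (1 - ε / 2) := by
      have : X ^ (1 - ε / 2) = X ^ (1 - ε) * X ^ (ε / 2) := by
        rw [← Real.rpow_add hXp]; congr 1; ring
      rw [this]
      apply mul_le_mul_of_nonneg_left _ (by positivity)
      linarith
    have hX1ε : 0 < X ^ (1 - ε) := by positivity
    have a2 : X ^ (1 - ε / 2) ≤ 2 * (N : ℝ) ^ (1 - ε / 2) := by
      rcases le_total 0 (1 - ε / 2) with hs | hs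
      · calc X ^ (1 - ε / 2) ≤ (2 * N : ℝ) ^ (1 - ε / 2) := Real.rpow_le_rpow hXp.le hNhalf hs
          _ = 2 ^ (1 - ε / 2) * (N : ℝ) ^ (1 - ε / 2) := Real.mul_rpow (by norm_num) hNp.le
          _ ≤ 2 * (N : ℝ) ^ (1 - ε / 2) := by
            apply mul_le_mul_of_nonneg_right _ (by positivity)
            calc (2 : ℝ) ^ (1 - ε / 2) ≤ 2 ^ (1 : ℝ) := Real.rpow_le_rpow_of_exponent_le (by norm_num) (by linarith)
              _ = 2 := Real.rpow_one 2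
      · have hc : X ^ (1 - ε / 2) ≤ (N : ℝ) ^ (1 - ε / 2) := Real.rpow_le_rpow_of_nonpos hNp hN1 hs
        have : 0 < (N : ℝ) ^ (1 - ε / 2) := by positivity
        linarith
    linarith
  rw [← hN] at hdisc
  have hd := hdisc h hc1 hc2
  have hts := two_sided f hf X H t (δ / 8) hH1 hHX (by rw [← hN, ← hh]; exact hd)
  rw [← hh] at hts
  have hsqrt : 40 / δ ≤ Real.sqrt h := by
    apply Real.le_sqrt_of_sq_le
    have : 0 ≤ (40 / δ) ^ 2 := sq_nonneg _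
    linarith
  have hs0 : 0 < Real.sqrt h := lt_of_lt_of_le (by positivity) hsqrt
  have hb1 : 5 / Real.sqrt h ≤ δ / 8 := by
    rw [div_le_iff₀ hs0]
    rw [div_le_iff₀ hδ] at hsqrt
    linarith
  have hb2 : H ≤ X * (δ / 8) := by
    have a1 : X ^ (1 - ε) * (8 / δ) ≤ X := by
      calc X ^ (1 - ε) * (8 / δ) ≤ X ^ (1 - ε) * X ^ ε := mul_le_mul_of_nonneg_left hX6 (by positivity)
        _ = X := hXX
    have a2 : H * (8 / δ) ≤ X := (mul_le_mul_of_nonneg_right h2 (by positivity)).trans a1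
    rw [← mul_div_assoc, div_le_iff₀ hδ] at a2
    linarith
  have hb3 : (7 : ℝ) ≤ X * (δ / 8) := by
    rw [div_le_iff₀ hδ] at hX3
    linarith
  have e1 : (volume (VV f X H t)).toReal / X - Ph t = ((volume (VV f X H t)).toReal - X * Ph t) / X := by
    field_simp
  rw [e1, abs_div, abs_of_pos hXp, div_le_iff₀ hXp]
  have hfin : X * (δ / 8 + 5 / Real.sqrt h) ≤ X * (δ / 8 + δ / 8) := by
    apply mul_le_mul_of_nonneg_left _ hXp.le
    linarith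
  have hXδ : 0 < X * δ := by positivity
  linarith

end Pool.Agent.K4H14.GQ
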