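import Pool.Agent.K4H14.GC.BC
import Pool.Agent.K4H14.GQ.Jac

/-!
# Twists by the quadratic characters of prime conductor
-/

set_option autoImplicit false

namespace Pool.Agent.K4H14.GQ

open Finset
open Pool.Agent.K4H14.GC

/-- `g² = μ²` -/
def SF (g : ℕ → ℝ) : Prop := ∀ n, (Squarefree n → g n ^ 2 = 1) ∧ (¬ Squarefree n → g n = 0)

/-- the twist of `g` by the Legendre symbol modulo `q` -/
noncomputable def tw (g : ℕ → ℝ) (q n : ℕ) : ℝ := g n * ((jacobiSym (n : ℤ) q : ℤ) : ℝ)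

theorem SF_abs {g : ℕ → ℝ} (hg : SF g) (n : ℕ) : |g n| ≤ 1 := by
  by_cases h : Squarefree n
  · have h1 := (hg n).1 h
    rw [← sq_abs] at h1
    nlinarith [abs_nonneg (g n)]
  · rw [(hg n).2 h, abs_zero]
    exact zero_le_one

theorem jac_abs (a : ℤ) (q : ℕ) : |((jacobiSym a q : ℤ) : ℝ)| ≤ 1 := by
  rcases jacobiSym.trichotomy a q with h | h | h <;> rw [h] <;> norm_num

theorem tw_abs {g : ℕ → ℝ} (hg : SF g) (q n : ℕ) : |tw g q n| ≤ 1 := by
  unfold tw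
  rw [abs_mul]
  have := mul_le_mul (SF_abs hg n) (jac_abs (n : ℤ) q) (abs_nonneg _) zero_le_one
  linarith

theorem rad_tw {g : ℕ → ℝ} (hg : SF g) {q : ℕ} (hq : q.Prime) (N Y : ℕ) (hY : Y < q) : Rad (tw g q) N Y := by
  intro m hNm hmY
  constructor
  · intro hm
    unfold tw
    rw [mul_pow, (hg m).1 hm, one_mul]
    have hcop : Int.gcd (m : ℤ) q = 1 := by
      rw [Int.gcd_natCast_natCast]
      apply Nat.Coprime.symm
      rw [Nat.Prime.coprime_iff_not_dvd hq]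
      intro hd
      have := Nat.le_of_dvd (by omega) hd
      omega
    have h1 := jacobiSym.sq_one (a := (m : ℤ)) (b := q) hcop
    exact_mod_cast h1
  · intro hm
    unfold tw
    rw [(hg m).2 hm, zero_mul]

theorem jac_prod {ι : Type} (S : Finset ι) (t : ι → ℕ) (q : ℕ) :
    ((jacobiSym ((∏ i ∈ S, t i : ℕ) : ℤ) q : ℤ) : ℝ) = ∏ i ∈ S, ((jacobiSym (t i : ℤ) q : ℤ) : ℝ) := by
  classical
  induction S using Finset.induction_on with
  | empty => simp [jacobiSym.one_left]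
  | insert x S hx ih =>
    rw [prod_insert hx, prod_insert hx, Nat.cast_mul, jacobiSym.mul_left, Int.cast_mul, ih]

theorem Bt_tw (g : ℕ → ℝ) (q N R h k : ℕ) :
    Bt N R h k (tw g q) = ∑ t ∈ NS N R h k, ((cw N R h t : ℝ) * ∏ i, g (t i)) * ((jacobiSym ((∏ i, t i : ℕ) : ℤ) q : ℤ) : ℝ) := by
  unfold Bt
  rw [sum_BB]
  apply sum_congr rfl
  intro t _
  unfold tw
  rw [prod_mul_distrib, jac_prod]
  ring

/-- the primes of `(D, Q]` with the property `P` -/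
noncomputable def PQ (D Q : ℕ) (P : ℕ → Prop) : Finset ℕ := open Classical in (Ioc D Q).filter (fun q => q.Prime ∧ P q)

theorem mem_PQ {D Q : ℕ} {P : ℕ → Prop} {q : ℕ} : q ∈ PQ D Q P ↔ (D < q ∧ q ≤ Q) ∧ q.Prime ∧ P q := by
  classical
  unfold PQ
  rw [mem_filter, mem_Ioc]

/-- few primes are exceptional for a given interval length -/
theorem prime_bad (k R : ℕ) (hk : 1 ≤ k) (hR : 1 ≤ R) (hR8 : R ≤ 8) (κ : ℝ) (hκ : 0 < κ) (hκk : κ * (2 * k) ≤ 1) :
    ∃ C : ℝ, 0 ≤ C ∧ ∀ g : ℕ → ℝ, SF g → ∀ N h D Q : ℕ, 1 ≤ N → (N : ℝ) ^ κ ≤ h → (h : ℝ) * (N : ℝ) ^ κ ≤ N →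
      2 ≤ D → (D : ℝ) ^ 2 * Real.log D ≤ Q → 4 * (D : ℝ) ^ 2 * (9 * (N : ℝ)) ^ (4 * k + 2) * Real.log D ≤ Q →
      ((PQ D Q (fun q => ¬ |Bt N R h k (tw g q)| ≤ (N : ℝ) ^ (1 - κ / 16) * Real.sqrt h ^ k)).card : ℝ) ≤
        C * (Q / Real.log D) * (N : ℝ) ^ (-(κ / 8)) := by
  classical
  obtain ⟨C, hC, h1⟩ := pairs_bound k R hk hR κ hκ hκk
  refine ⟨2 * C + 1, by positivity, ?_⟩
  intro g hg N h D Q hN hNh hhN hD hD2 hD3
  have hNr : (1 : ℝ) ≤ N := by exact_mod_cast hN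
  have hN0 : (0 : ℝ) < N := by linarith
  have hs1 : (1 : ℝ) ≤ (N : ℝ) ^ κ := Real.one_le_rpow hNr hκ.le
  have hh1 : (1 : ℝ) ≤ h := hs1.trans hNh
  have hh0 : (0 : ℝ) < h := by linarith
  have hhNr : (h : ℝ) ≤ N := le_trans (le_mul_of_one_le_right hh0.le hs1) hhN
  have hhN' : h ≤ N := by exact_mod_cast hhNr
  have hsq0 : (0 : ℝ) < Real.sqrt h := Real.sqrt_pos.2 hh0
  have hsq1 : (1 : ℝ) ≤ Real.sqrt h := by rw [Real.one_le_sqrt]; exact hh1
  have hlog : 0 < Real.log D := Real.log_pos (by exact_mod_cast (by omega : 1 < D))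
  obtain ⟨T, hT⟩ : ∃ T : ℝ, T = (N : ℝ) ^ (1 - κ / 16) * Real.sqrt h ^ k := ⟨_, rfl⟩
  have hT0 : 0 < T := by rw [hT]; positivity
  rw [← hT]
  obtain ⟨L, hL⟩ : ∃ L : ℝ, L = Q / Real.log D := ⟨_, rfl⟩
  have hD2' : (D : ℝ) ^ 2 ≤ L := by rw [hL, le_div_iff₀ hlog]; exact hD2
  have hD3' : 4 * (D : ℝ) ^ 2 * (9 * (N : ℝ)) ^ (4 * k + 2) ≤ L := by rw [hL, le_div_iff₀ hlog]; exact hD3
  have hL0 : 0 ≤ L := le_trans (by positivity) hD2'
  -- the large sieve
  have hmem : ∀ t ∈ NS N R h k, 0 < ∏ i, t i ∧ ((∏ i, t i : ℕ) : ℝ) ≤ (9 * (N : ℝ)) ^ k := by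
    intro t ht
    rw [mem_NS] at ht
    refine ⟨Finset.prod_pos fun i _ => by have := (ht.1 i).1; omega, ?_⟩
    have h2 : ∏ i, t i ≤ (9 * N) ^ k := by
      calc ∏ i, t i ≤ ∏ _i : Fin k, 9 * N := by
            apply prod_le_prod'
            intro i _
            have h3 := (ht.1 i).2
            have h4 : R * N ≤ 8 * N := Nat.mul_le_mul_right _ hR8
            omega
        _ = (9 * N) ^ k := by rw [prod_const, card_univ, Fintype.card_fin]
    exact_mod_cast h2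
  have h2 := sieve D Q hD (NS N R h k) (fun t => (cw N R h t : ℝ) * ∏ i, g (t i)) (fun t => ∏ i, t i) ((9 * (N : ℝ)) ^ k) hmem
  simp only [← Bt_tw] at h2
  have habs : ∀ t : Fin k → ℕ, |(cw N R h t : ℝ) * ∏ i, g (t i)| ≤ cw N R h t := by
    intro t
    rw [abs_mul, Nat.abs_cast, abs_prod]
    apply mul_le_of_le_one_right (Nat.cast_nonneg _)
    exact prod_le_one (fun i _ => abs_nonneg _) (fun i _ => SF_abs hg _)
  -- the total weight
  have h3 : ∑ t ∈ NS N R h k, |(cw N R h t : ℝ) * ∏ i, g (t i)| ≤ (9 * (N : ℝ)) ^ (k + 1) := by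
    calc ∑ t ∈ NS N R h k, |(cw N R h t : ℝ) * ∏ i, g (t i)| ≤ ∑ _t ∈ NS N R h k, (N : ℝ) := by
          apply sum_le_sum
          intro t _
          refine (habs t).trans ?_
          exact_mod_cast (cw_le N R h hk t).trans hhN'
      _ = ((NS N R h k).card : ℝ) * N := by rw [sum_const, nsmul_eq_mul]
      _ ≤ (9 * (N : ℝ)) ^ k * (9 * N) := by
          apply mul_le_mul _ (by linarith) hN0.le (by positivity)
          have h4 : (NS N R h k).card ≤ (9 * N) ^ k := by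
            calc (NS N R h k).card ≤ (Fintype.piFinset (fun _ : Fin k => Ioc N (R * N + h))).card := by
                  apply card_le_card
                  unfold NS
                  exact filter_subset _ _
              _ ≤ (9 * N) ^ k := by
                  rw [Fintype.card_piFinset_const, Nat.card_Ioc]
                  apply Nat.pow_le_pow_left
                  have h4 : R * N ≤ 8 * N := Nat.mul_le_mul_right _ hR8
                  omega
          exact_mod_cast h4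
      _ = _ := by rw [pow_succ]
  have h3' : 0 ≤ ∑ t ∈ NS N R h k, |(cw N R h t : ℝ) * ∏ i, g (t i)| := sum_nonneg fun _ _ => abs_nonneg _
  have h4 : (∑ i ∈ NS N R h k, ∑ j ∈ NS N R h k, if IsSquare ((∏ a, i a) * ∏ a, j a) then
      |(cw N R h i : ℝ) * ∏ a, g (i a)| * |(cw N R h j : ℝ) * ∏ a, g (j a)| else 0) ≤ C * (N : ℝ) ^ (2 - κ / 4) * (Real.sqrt h ^ k) ^ 2 := by
    refine le_trans ?_ (h1 N h hN hNh hhN)
    apply sum_le_sum
    intro t _
    apply sum_le_sum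
    intro t' _
    split_ifs
    · exact mul_le_mul (habs t) (habs t') (abs_nonneg _) (Nat.cast_nonneg _)
    · exact le_rfl
  have h5 : ∑ q ∈ (Ioc D Q).filter Nat.Prime, Bt N R h k (tw g q) ^ 2 ≤ (2 * C + 1) * L * ((N : ℝ) ^ (2 - κ / 4) * (Real.sqrt h ^ k) ^ 2) := by
    obtain ⟨V, hV⟩ : ∃ V : ℝ, V = (N : ℝ) ^ (2 - κ / 4) * (Real.sqrt h ^ k) ^ 2 := ⟨_, rfl⟩
    have hV1 : 1 ≤ V := by
      rw [hV]
      apply one_le_mul_of_one_le_of_one_le
      · apply Real.one_le_rpow hNr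
        have hk1 : (1 : ℝ) ≤ k := by exact_mod_cast hk
        have : κ ≤ 1 := by nlinarith
        linarith
      · exact one_le_pow₀ (one_le_pow₀ hsq1)
    rw [← hV]
    have h4' := h4
    rw [mul_assoc, ← hV] at h4'
    have h6 : (Q / Real.log D + (D : ℝ) ^ 2) ≤ 2 * L := by rw [← hL]; linarith
    have h7 : 4 * ((9 * (N : ℝ)) ^ k) ^ 2 * (D : ℝ) ^ 2 * (∑ t ∈ NS N R h k, |(cw N R h t : ℝ) * ∏ i, g (t i)|) ^ 2 ≤ L := by
      have h8 := pow_le_pow_left₀ h3' h3 2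
      have h9 := mul_le_mul_of_nonneg_left h8 (by positivity : (0 : ℝ) ≤ 4 * ((9 * (N : ℝ)) ^ k) ^ 2 * (D : ℝ) ^ 2)
      refine h9.trans (le_trans (le_of_eq ?_) hD3')
      ring
    refine h2.trans ?_
    have h10 := mul_le_mul h6 h4' (sum_nonneg fun i _ => sum_nonneg fun j _ => by split_ifs <;> positivity) (by linarith)
    have h11 : L ≤ L * V := le_mul_of_one_le_right hL0 hV1
    refine (add_le_add h10 h7).trans ?_
    nlinarith
  -- Markov
  obtain ⟨B, hB⟩ : ∃ B : Finset ℕ, B = PQ D Q (fun q => ¬ |Bt N R h k (tw g q)| ≤ T) := ⟨_, rfl⟩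
  rw [← hB]
  have h6 : (B.card : ℝ) * T ^ 2 ≤ ∑ q ∈ (Ioc D Q).filter Nat.Prime, Bt N R h k (tw g q) ^ 2 := by
    calc (B.card : ℝ) * T ^ 2 = ∑ _q ∈ B, T ^ 2 := by rw [sum_const, nsmul_eq_mul]
      _ ≤ ∑ q ∈ B, Bt N R h k (tw g q) ^ 2 := by
          apply sum_le_sum
          intro q hq
          rw [hB, mem_PQ] at hq
          rw [← sq_abs (Bt N R h k (tw g q))]
          exact pow_le_pow_left₀ hT0.le (not_le.1 hq.2.2).le 2
      _ ≤ _ := by
          apply sum_le_sum_of_subset_of_nonneg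
          · intro q hq
            rw [hB, mem_PQ] at hq
            rw [mem_filter, mem_Ioc]
            exact ⟨hq.1, hq.2.1⟩
          · intro q _ _
            exact sq_nonneg _
  have h7 := h6.trans h5
  have h8 : T ^ 2 = (N : ℝ) ^ (2 - κ / 8) * (Real.sqrt h ^ k) ^ 2 := by
    rw [hT, mul_pow, ← Real.rpow_natCast ((N : ℝ) ^ (1 - κ / 16)) 2, ← Real.rpow_mul hN0.le]
    congr 2
    push_cast
    ring
  have h9 : (2 * C + 1) * L * ((N : ℝ) ^ (2 - κ / 4) * (Real.sqrt h ^ k) ^ 2) = ((2 * C + 1) * L * (N : ℝ) ^ (-(κ / 8))) * T ^ 2 := by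
    rw [h8]
    have h10 : (N : ℝ) ^ (2 - κ / 4) = (N : ℝ) ^ (2 - κ / 8) * (N : ℝ) ^ (-(κ / 8)) := by
      rw [← Real.rpow_add hN0]
      congr 1
      ring
    rw [h10]
    ring
  rw [h9] at h7
  rw [← hL]
  exact le_of_mul_le_mul_right h7 (by positivity)

end Pool.Agent.K4H14.GQ
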